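import Mathlib

/-!
# Public announcement logic with common knowledge and iterated announcements

Syntax, semantics over epistemic models, Goedel numbering; derived connectives.
-/

set_option autoImplicit false

namespace Pool.Agent.Z85.PA

/-- The formulas; the agents are the elements of `Fin k`.  `know a φ` is `K_a φ`, `common G _ φ` is
`C_G φ`, `ann φ ψ` is `[!φ]ψ` and `star φ ψ` is `[(!φ)^*]ψ`. -/
inductive Form (k : ℕ) : Type
  | var : ℕ → Form k
  | neg : Form k → Form k
  | and : Form k → Form k → Form k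
  | know : Fin k → Form k → Form k
  | common : (G : Finset (Fin k)) → G.Nonempty → Form k → Form k
  | ann : Form k → Form k → Form k
  | star : Form k → Form k → Form k

/-- The Goedel number of a formula. -/
def code {k : ℕ} : Form k → ℕ
  | .var n => Nat.pair 0 n
  | .neg φ => Nat.pair 1 (code φ)
  | .and φ ψ => Nat.pair 2 (Nat.pair (code φ) (code ψ))
  | .know a φ => Nat.pair 3 (Nat.pair a (code φ))
  | .common G _ φ => Nat.pair 4 (Nat.pair (∑ a ∈ G, 2 ^ (a : ℕ)) (code φ))
  | .ann φ ψ => Nat.pair 5 (Nat.pair (code φ) (code ψ))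
  | .star φ ψ => Nat.pair 6 (Nat.pair (code φ) (code ψ))

/-- Epistemic models: worlds, one equivalence relation for each agent, a valuation. -/
structure Model (k : ℕ) where
  /-- the worlds -/
  W : Type
  /-- there is a world -/
  nonempty : Nonempty W
  /-- indistinguishability for the agents -/
  rel : Fin k → W → W → Prop
  /-- the relations are equivalence relations -/
  equiv : ∀ a, Equivalence (rel a)
  /-- the valuation -/
  val : ℕ → W → Prop

/-- `Sat M φ D w`: the formula `φ` is true at the world `w` of the submodel of `M` on the set of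
worlds `D`. -/
def Sat {k : ℕ} (M : Model k) : Form k → Set M.W → M.W → Prop
  | .var n, _, w => M.val n w
  | .neg φ, D, w => ¬ Sat M φ D w
  | .and φ ψ, D, w => Sat M φ D w ∧ Sat M ψ D w
  | .know a φ, D, w => ∀ v ∈ D, M.rel a w v → Sat M φ D v
  | .common G _ φ, D, w => ∀ v ∈ D,
      Relation.TransGen (fun x y => x ∈ D ∧ y ∈ D ∧ ∃ a ∈ G, M.rel a x y) w v → Sat M φ D v
  | .ann φ ψ, D, w => Sat M φ D w → Sat M ψ {v | v ∈ D ∧ Sat M φ D v} w
  | .star φ ψ, D, w => ∀ n : ℕ, w ∈ (fun E : Set M.W => {v | v ∈ E ∧ Sat M φ E v})^[n] D →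
      Sat M ψ ((fun E : Set M.W => {v | v ∈ E ∧ Sat M φ E v})^[n] D) w

/-- A formula is finitely valid if it is true at every world of every finite epistemic model. -/
def FinValid {k : ℕ} (φ : Form k) : Prop :=
  ∀ M : Model k, Finite M.W → ∀ w : M.W, Sat M φ Set.univ w

section Derived

variable {k : ℕ} (M : Model k)

/-- the domain after one announcement -/
def restr (φ : Form k) (D : Set M.W) : Set M.W := {v | v ∈ D ∧ Sat M φ D v}

/-- the domain after `n` announcements -/
def dom (φ : Form k) (D : Set M.W) (n : ℕ) : Set M.W := (restr M φ)^[n] D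

theorem dom_zero (φ : Form k) (D : Set M.W) : dom M φ D 0 = D := rfl

theorem dom_succ (φ : Form k) (D : Set M.W) (n : ℕ) :
    dom M φ D (n + 1) = restr M φ (dom M φ D n) := by
  unfold dom
  rw [Function.iterate_succ_apply']

theorem dom_subset (φ : Form k) (D : Set M.W) (n : ℕ) : dom M φ D n ⊆ D := by
  induction n with
  | zero => exact subset_rfl
  | succ n ih =>
    rw [dom_succ]
    intro v hv
    exact ih hv.1

theorem dom_anti (φ : Form k) (D : Set M.W) {m n : ℕ} (h : m ≤ n) :
    dom M φ D n ⊆ dom M φ D m := by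
  induction n, h using Nat.le_induction with
  | base => exact subset_rfl
  | succ n _ ih =>
    rw [dom_succ]
    intro v hv
    exact ih hv.1

theorem sat_neg (φ : Form k) (D : Set M.W) (w : M.W) :
    Sat M (.neg φ) D w ↔ ¬ Sat M φ D w := Iff.rfl

theorem sat_and (φ ψ : Form k) (D : Set M.W) (w : M.W) :
    Sat M (.and φ ψ) D w ↔ Sat M φ D w ∧ Sat M ψ D w := Iff.rfl

theorem sat_var (n : ℕ) (D : Set M.W) (w : M.W) : Sat M (.var n) D w ↔ M.val n w := Iff.rfl

theorem sat_know (a : Fin k) (φ : Form k) (D : Set M.W) (w : M.W) :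
    Sat M (.know a φ) D w ↔ ∀ v ∈ D, M.rel a w v → Sat M φ D v := Iff.rfl

theorem sat_ann (φ ψ : Form k) (D : Set M.W) (w : M.W) :
    Sat M (.ann φ ψ) D w ↔ (Sat M φ D w → Sat M ψ (restr M φ D) w) := Iff.rfl

theorem sat_star (φ ψ : Form k) (D : Set M.W) (w : M.W) :
    Sat M (.star φ ψ) D w ↔ ∀ n : ℕ, w ∈ dom M φ D n → Sat M ψ (dom M φ D n) w := Iff.rfl

/-- disjunction -/
def dis (φ ψ : Form k) : Form k := .neg (.and (.neg φ) (.neg ψ))

/-- implication -/
def imp (φ ψ : Form k) : Form k := .neg (.and φ (.neg ψ))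

/-- truth -/
def top : Form k := .neg (.and (.var 0) (.neg (.var 0)))

/-- possibility -/
def dia (a : Fin k) (φ : Form k) : Form k := .neg (.know a (.neg φ))

/-- some number of announcements -/
def dstar (φ ψ : Form k) : Form k := .neg (.star φ (.neg ψ))

/-- finite conjunctions -/
def conj : List (Form k) → Form k
  | [] => top
  | φ :: l => .and φ (conj l)

/-- finite disjunctions -/
def disj : List (Form k) → Form k
  | [] => .neg top
  | φ :: l => dis φ (disj l)

variable (D : Set M.W) (w : M.W)

theorem sat_dis (φ ψ : Form k) : Sat M (dis φ ψ) D w ↔ Sat M φ D w ∨ Sat M ψ D w := by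
  simp only [dis, sat_neg, sat_and]
  tauto

theorem sat_imp (φ ψ : Form k) : Sat M (imp φ ψ) D w ↔ (Sat M φ D w → Sat M ψ D w) := by
  simp only [imp, sat_neg, sat_and]
  tauto

theorem sat_top : Sat M (top : Form k) D w := by
  simp only [top, sat_neg, sat_and]
  tauto

theorem sat_dia (a : Fin k) (φ : Form k) :
    Sat M (dia a φ) D w ↔ ∃ v ∈ D, M.rel a w v ∧ Sat M φ D v := by
  simp only [dia, sat_neg, sat_know]
  push Not
  rfl

theorem sat_dstar (φ ψ : Form k) :
    Sat M (dstar φ ψ) D w ↔ ∃ n : ℕ, w ∈ dom M φ D n ∧ Sat M ψ (dom M φ D n) w := by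
  simp only [dstar, sat_neg, sat_star]
  push Not
  rfl

theorem sat_conj (l : List (Form k)) : Sat M (conj l) D w ↔ ∀ φ ∈ l, Sat M φ D w := by
  induction l with
  | nil => simp [conj, sat_top]
  | cons φ l ih => simp [conj, sat_and, ih]

theorem sat_disj (l : List (Form k)) : Sat M (disj l) D w ↔ ∃ φ ∈ l, Sat M φ D w := by
  induction l with
  | nil => simp [disj, sat_neg, sat_top]
  | cons φ l ih => simp [disj, sat_dis, ih]

end Derived

end Pool.Agent.Z85.PA
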