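import Pool.Agent.Z85.PA.Complete

/-!
# Computability of the reduction, and its source
-/

set_option autoImplicit false

namespace Pool.Agent.Z85.PA

open Pool.Agent.Helper707.Flat Pool.Agent.Helper707.Num
open Nat.Partrec (Code)

theorem re_source {p : ℕ → Prop} (hp : REPred p) : ∃ f : List.Vector ℕ 2 → ℕ, Nat.Primrec' f ∧
    ∀ x, p x ↔ ∃ k, f (k ::ᵥ x ::ᵥ List.Vector.nil) = 0 := by
  have h0 : Partrec fun x : ℕ => (Part.assert (p x) fun _ => Part.some ()) := hp
  have h1 : Partrec fun x : ℕ => (Part.assert (p x) fun _ => Part.some ()).map fun _ => (0 : ℕ) :=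
    h0.map (Computable.const 0).to₂
  obtain ⟨c, hc⟩ := Code.exists_code.1 (Partrec.nat_iff.1 h1)
  have hdom : ∀ x, (c.eval x).Dom ↔ p x := by
    intro x
    rw [hc]
    constructor
    · rintro ⟨h, -⟩
      exact h
    · intro h
      exact ⟨h, trivial⟩
  let f : List.Vector ℕ 2 → ℕ := fun v =>
    if (Code.evaln v.head c v.tail.head).isSome then 0 else 1
  have hf : Primrec f := by
    have h1 : Primrec fun v : List.Vector ℕ 2 => Code.evaln v.head c v.tail.head := by
      have h2 : Primrec fun v : List.Vector ℕ 2 =>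
          (((v.head, c), v.tail.head) : (ℕ × Code) × ℕ) :=
        Primrec.pair (Primrec.pair Primrec.vector_head (Primrec.const c))
          (Primrec.vector_head.comp Primrec.vector_tail)
      exact Code.primrec_evaln.comp h2
    have h3 : Primrec fun v : List.Vector ℕ 2 => (Code.evaln v.head c v.tail.head).isSome :=
      Primrec.option_isSome.comp h1
    exact Primrec.ite (Primrec.eq.comp h3 (Primrec.const true)) (Primrec.const 0) (Primrec.const 1)
  refine ⟨f, Nat.Primrec'.of_prim hf, fun x => ?_⟩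
  rw [← hdom x]
  have h2 : ∀ k, f (k ::ᵥ x ::ᵥ List.Vector.nil) = 0 ↔ (Code.evaln k c x).isSome = true := by
    intro k
    simp only [f, List.Vector.head_cons, List.Vector.tail_cons]
    split_ifs with h <;> simp [h]
  simp only [h2]
  rw [Part.dom_iff_mem]
  constructor
  · rintro ⟨y, hy⟩
    obtain ⟨k, hk⟩ := Code.evaln_complete.1 hy
    exact ⟨k, Option.isSome_iff_exists.2 ⟨y, hk⟩⟩
  · rintro ⟨k, hk⟩
    obtain ⟨y, hy⟩ := Option.isSome_iff_exists.1 hk
    exact ⟨y, Code.evaln_complete.2 ⟨k, hy⟩⟩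

/-- counter programs for the recursively enumerable sets -/
theorem re_program {p : ℕ → Prop} (hp : REPred p) : ∃ (K : ℕ) (P : List Ins), 0 < K ∧
    (∀ i ∈ P, Ok K P.length i) ∧
    ∀ x, p x ↔ ∃ T, ((step P)^[T] (0, sx x 0 0)).1 = P.length := by
  obtain ⟨f, hf, h⟩ := re_source hp
  obtain ⟨body, hb⟩ := search hf
  have hlen : (Pool.Agent.Helper707.Flat.code (prog body) 0).length = len (prog body) := length_code _ _
  obtain ⟨K, hK⟩ := code_ok (prog body)
  refine ⟨K + 1, Pool.Agent.Helper707.Flat.code (prog body) 0, Nat.succ_pos K, fun i hi => ?_, fun x => ?_⟩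
  · have := hK 0 i hi
    rw [zero_add] at this
    rw [hlen]
    exact this.mono (Nat.le_succ K) le_rfl
  · rw [h x, halting_iff hb, hlen]

variable {k : ℕ} (a b : Fin k) (K : ℕ) (P : List Ins)

theorem primrec_inp : Primrec fun x => PA.code (inp a b K x) := by
  have h : (fun x => PA.code (inp a b K x)) = fun x => Nat.rec (PA.code (endF a 0))
      (fun _ c => Nat.pair 2 (Nat.pair (PA.code (.neg (endF a 0)))
        (Nat.pair 5 (Nat.pair (PA.code (peel a b K)) c)))) x := by
    funext x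
    induction x with
    | zero => rfl
    | succ x ih =>
      simp only
      rw [← ih]
      rfl
  rw [h]
  have hc : Primrec fun q : ℕ × ℕ × ℕ => q.2.2 := Primrec.snd.comp Primrec.snd
  have hs : Primrec fun q : ℕ × ℕ × ℕ => Nat.pair 2 (Nat.pair (PA.code (.neg (endF a 0)))
        (Nat.pair 5 (Nat.pair (PA.code (peel a b K)) q.2.2))) :=
    Primrec₂.natPair.comp (Primrec.const _) (Primrec₂.natPair.comp (Primrec.const _)
    (Primrec₂.natPair.comp (Primrec.const _) (Primrec₂.natPair.comp (Primrec.const _) hc)))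
  exact Primrec.nat_rec' (f := fun x : ℕ => x) (g := fun _ => PA.code (endF a 0))
    (h := fun _ q => Nat.pair 2 (Nat.pair (PA.code (.neg (endF a 0)))
        (Nat.pair 5 (Nat.pair (PA.code (peel a b K)) q.2)))) Primrec.id (Primrec.const _) hs

theorem primrec_Phi : Primrec fun x => PA.code (.neg (Phi a b K P x)) := by
  have h : (fun x => PA.code (.neg (Phi a b K P x))) = fun x =>
      Nat.pair 1 (Nat.pair 2 (Nat.pair (PA.code (inp a b K x)) (PA.code
        (conj [mainL, qL 0, conj ((List.range K).map fun j => if j = 0 then top else endF a j),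
          .common {a, b} (by simp) (imp mainL (locF a b K P))])))) := rfl
  rw [h]
  exact Primrec₂.natPair.comp (Primrec.const _) (Primrec₂.natPair.comp (Primrec.const _)
    (Primrec₂.natPair.comp (primrec_inp a b K) (Primrec.const _)))

theorem sum_inj {G H : Finset (Fin k)} (h : ∑ c ∈ G, 2 ^ (c : ℕ) = ∑ c ∈ H, 2 ^ (c : ℕ)) :
    G = H := by
  have e : ∀ G : Finset (Fin k), ∑ c ∈ G, 2 ^ (c : ℕ) = ∑ i ∈ G.map Fin.valEmbedding, 2 ^ i := by
    intro G
    rw [Finset.sum_map]
    rfl
  rw [e, e] at h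
  have := Finset.geomSum_injective (n := 2) le_rfl h
  exact Finset.map_injective _ this

theorem code_inj : ∀ φ ψ : Form k, PA.code φ = PA.code ψ → φ = ψ := by
  intro φ
  induction φ with
  | var n =>
    intro ψ h
    cases ψ <;> simp only [PA.code, Nat.pair_eq_pair] at h <;> first | (obtain ⟨h1, h2⟩ := h; omega) | skip
    rw [h.2]
  | neg φ ih =>
    intro ψ h
    cases ψ <;> simp only [PA.code, Nat.pair_eq_pair] at h <;> first | (obtain ⟨h1, h2⟩ := h; omega) | skip
    rw [ih _ h.2]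
  | and φ χ ih1 ih2 =>
    intro ψ h
    cases ψ <;> simp only [PA.code, Nat.pair_eq_pair] at h <;> first | (obtain ⟨h1, h2⟩ := h; omega) | skip
    rw [ih1 _ h.2.1, ih2 _ h.2.2]
  | know c φ ih =>
    intro ψ h
    cases ψ <;> simp only [PA.code, Nat.pair_eq_pair] at h <;> first | (obtain ⟨h1, h2⟩ := h; omega) | skip
    rw [ih _ h.2.2, Fin.ext h.2.1]
  | common G hG φ ih =>
    intro ψ h
    cases ψ <;> simp only [PA.code, Nat.pair_eq_pair] at h <;> first | (obtain ⟨h1, h2⟩ := h; omega) | skip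
    have := sum_inj h.2.1
    subst this
    rw [ih _ h.2.2]
  | ann φ χ ih1 ih2 =>
    intro ψ h
    cases ψ <;> simp only [PA.code, Nat.pair_eq_pair] at h <;> first | (obtain ⟨h1, h2⟩ := h; omega) | skip
    rw [ih1 _ h.2.1, ih2 _ h.2.2]
  | star φ χ ih1 ih2 =>
    intro ψ h
    cases ψ <;> simp only [PA.code, Nat.pair_eq_pair] at h <;> first | (obtain ⟨h1, h2⟩ := h; omega) | skip
    rw [ih1 _ h.2.1, ih2 _ h.2.2]

theorem valid_code (ψ : Form k) : (∃ φ : Form k, PA.code φ = PA.code ψ ∧ FinValid φ) ↔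
    FinValid ψ := by
  constructor
  · rintro ⟨φ, h1, h2⟩
    have e := code_inj _ _ h1
    subst e
    exact h2
  · intro h
    exact ⟨ψ, rfl, h⟩

theorem valid_neg (ψ : Form k) : FinValid (.neg ψ) ↔
    ¬ ∃ M : Model k, Finite M.W ∧ ∃ w, Sat M ψ Set.univ w := by
  constructor
  · rintro h ⟨M, hM, w, hw⟩
    exact (sat_neg M _ _ _).1 (h M hM w) hw
  · intro h M hM w
    exact (sat_neg M _ _ _).2 fun hw => h ⟨M, hM, w, hw⟩

theorem valid_iff {a b : Fin k} (hab : a ≠ b) {K : ℕ} {P : List Ins}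
    (hP : ∀ i ∈ P, Ok K P.length i) (hK : 0 < K) (x : ℕ) :
    (∃ φ : Form k, PA.code φ = PA.code (.neg (Phi a b K P x)) ∧ FinValid φ) ↔
      ¬ ∃ T, ((step P)^[T] (0, sx x 0 0)).1 = P.length := by
  have h1 := valid_code (.neg (Phi a b K P x))
  have h2 := valid_neg (Phi a b K P x)
  have h3 := phi_iff K P x hab hP hK
  exact h1.trans (h2.trans (not_congr h3))

theorem hard' {a b : Fin k} (hab : a ≠ b) {p : ℕ → Prop} (hp : REPred fun n => ¬ p n) :
    ManyOneReducible p fun n => ∃ φ : Form k, PA.code φ = n ∧ FinValid φ := by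
  obtain ⟨K, P, hK, hP, h⟩ := re_program hp
  have h1 : Computable fun x => PA.code (.neg (Phi a b K P x)) := (primrec_Phi a b K P).to_comp
  have h2 : ∀ x, p x ↔ ∃ φ : Form k, PA.code φ = PA.code (.neg (Phi a b K P x)) ∧
      FinValid φ := by
    intro x
    have h3 := valid_iff hab hP hK x
    have h4 : p x ↔ ¬ ∃ T, ((step P)^[T] (0, sx x 0 0)).1 = P.length := by
      rw [← h x, not_not]
    exact h4.trans h3.symm
  exact ⟨_, h1, h2⟩

theorem hard {k : ℕ} (hk : 2 ≤ k) {p : ℕ → Prop} (hp : REPred fun n => ¬ p n) :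
    ManyOneReducible p fun n => ∃ φ : Form k, PA.code φ = n ∧ FinValid φ :=
  hard' (a := ⟨0, by omega⟩) (b := ⟨1, by omega⟩) (by simp) hp

end Pool.Agent.Z85.PA
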