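import Pool.Agent.Z85.PA.Sound

/-!
# A halting computation gives a finite model of the formula
-/

set_option autoImplicit false

namespace Pool.Agent.Z85.PA

open Pool.Agent.Helper707.Flat Pool.Agent.Helper707.Num

section

variable (K : ℕ) (P : List Ins) (x T : ℕ)

/-- the configuration at the time `i` -/
def cfg (i : ℕ) : ℕ × (ℕ → ℕ) := (step P)^[i] (0, sx x 0 0)

/-- the length of the chain `j` at the time `i` -/
def len' (i j : ℕ) : ℕ := if j < K then (cfg P x i).2 j else T - i

/-- the worlds -/
abbrev Wd : Type :=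
  Fin (T + 1) ⊕ Fin (T + 1) ⊕ (Σ i : Fin (T + 1), Σ j : Fin (K + 1), Fin (len' K P x T i j))

instance : Finite (Wd K P x T) := inferInstance

/-- key of the first relation -/
def ka : Wd K P x T → ℕ × ℕ × ℕ
  | .inl i => (i, 0, 0)
  | .inr (.inl i) => (i, 0, 0)
  | .inr (.inr ⟨i, j, m⟩) => if (m : ℕ) = 0 then ((i : ℕ), 0, 0) else (i, j + 1, (m + 1) / 2)

/-- key of the second relation -/
def kb : Wd K P x T → ℕ × ℕ × ℕ
  | .inl i => (i, 0, 0)
  | .inr (.inl i) => (i + 1, 0, 0)
  | .inr (.inr ⟨i, j, m⟩) => (i, j + 1, m / 2)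

/-- valuation -/
def vl (n : ℕ) : Wd K P x T → Prop
  | .inl i => n = 0 ∨ n = 2 * (cfg P x i).1 + 2
  | .inr (.inl _) => n = 1
  | .inr (.inr ⟨_, j, m⟩) => n = 2 * (3 * j + m % 3) + 3

variable {k : ℕ} (a b : Fin k)

/-- the relations -/
def rl (c : Fin k) (w v : Wd K P x T) : Prop :=
  (c = a → ka K P x T w = ka K P x T v) ∧ (c = b → kb K P x T w = kb K P x T v) ∧
    (c ≠ a → c ≠ b → w = v)

theorem rl_equiv (c : Fin k) : Equivalence (rl K P x T a b c) :=
  ⟨fun _ => ⟨fun _ => rfl, fun _ => rfl, fun _ _ => rfl⟩,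
    fun h => ⟨fun hc => (h.1 hc).symm, fun hc => (h.2.1 hc).symm, fun h1 h2 => (h.2.2 h1 h2).symm⟩,
    fun h h' => ⟨fun hc => (h.1 hc).trans (h'.1 hc), fun hc => (h.2.1 hc).trans (h'.2.1 hc),
      fun h1 h2 => (h.2.2 h1 h2).trans (h'.2.2 h1 h2)⟩⟩

/-- the model -/
abbrev Mod : Model k where
  W := Wd K P x T
  nonempty := ⟨.inl 0⟩
  rel := rl K P x T a b
  equiv := rl_equiv K P x T a b
  val := vl K P x T

variable {a b} (hab : a ≠ b)

include hab

theorem rel_a (w v : Wd K P x T) :
    (Mod K P x T a b).rel a w v ↔ ka K P x T w = ka K P x T v :=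
  ⟨fun h => h.1 rfl, fun h => ⟨fun _ => h, fun hc => absurd hc hab, fun hc => absurd rfl hc⟩⟩

theorem rel_b (w v : Wd K P x T) :
    (Mod K P x T a b).rel b w v ↔ kb K P x T w = kb K P x T v :=
  ⟨fun h => h.2.1 rfl, fun h => ⟨fun hc => absurd hc hab.symm, fun _ => h,
    fun _ hc => absurd rfl hc⟩⟩

/-- the domain at the stage `n` -/
def Dn (n : ℕ) : Set (Wd K P x T) := {w | match w with
  | .inl _ => True
  | .inr (.inl _) => True
  | .inr (.inr ⟨i, j, m⟩) => (m : ℕ) + n < len' K P x T i j}

theorem dom_eq (n : ℕ) : dom (Mod K P x T a b) (peel a b K) Set.univ n = Dn K P x T n := by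
  induction n with
  | zero =>
    rw [dom_zero]
    ext w
    simp only [Set.mem_univ, true_iff]
    match w with
    | .inl _ => trivial
    | .inr (.inl _) => trivial
    | .inr (.inr ⟨i, j, m⟩) => exact m.2
  | succ n ih =>
    rw [dom_succ, ih]
    ext w
    match w with
    | .inl i =>
      refine ⟨fun _ => trivial, fun _ => ⟨trivial, ?_⟩⟩
      rw [peel, sat_dis]
      exact Or.inl (Or.inl rfl)
    | .inr (.inl i) =>
      refine ⟨fun _ => trivial, fun _ => ⟨trivial, ?_⟩⟩
      rw [peel, sat_dis, sat_dis]
      exact Or.inr (Or.inl rfl)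
    | .inr (.inr ⟨i, j, m⟩) =>
      have hsat : Sat (Mod K P x T a b) (peel a b K) (Dn K P x T n) (.inr (.inr ⟨i, j, m⟩)) ↔
          ∃ v ∈ Dn K P x T n, vl K P x T (2 * (3 * j + (m + 1) % 3) + 3) v ∧
            (ka K P x T (.inr (.inr ⟨i, j, m⟩)) = ka K P x T v ∨
              kb K P x T (.inr (.inr ⟨i, j, m⟩)) = kb K P x T v) := by
        rw [peel, sat_dis, sat_dis]
        have n1 : ¬ Sat (Mod K P x T a b) mainL (Dn K P x T n) (.inr (.inr ⟨i, j, m⟩)) := by
          intro h
          have h : 0 = 2 * (3 * (j : ℕ) + m % 3) + 3 := h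
          omega
        have n2 : ¬ Sat (Mod K P x T a b) outL (Dn K P x T n) (.inr (.inr ⟨i, j, m⟩)) := by
          intro h
          have h : 1 = 2 * (3 * (j : ℕ) + m % 3) + 3 := h
          omega
        simp only [n1, n2, false_or]
        unfold hasNext
        rw [sat_disj]
        simp only [List.mem_map, List.mem_range, exists_exists_and_eq_and, sat_disj, sat_and,
          sat_dis, sat_dia]
        constructor
        · rintro ⟨j', hj', i', hi', h1, h2⟩
          have h1 : 2 * (3 * j' + i') + 3 = 2 * (3 * (j : ℕ) + m % 3) + 3 := h1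
          have e1 : j' = j := by omega
          have e2 : i' = m % 3 := by omega
          have e3 : (i' + 1) % 3 = (m + 1) % 3 := by omega
          subst e1
          rw [e3] at h2
          rcases h2 with ⟨v, hv, h3, h4⟩ | ⟨v, hv, h3, h4⟩
          · exact ⟨v, hv, h4, Or.inl ((rel_a K P x T hab _ _).1 h3)⟩
          · exact ⟨v, hv, h4, Or.inr ((rel_b K P x T hab _ _).1 h3)⟩
        · rintro ⟨v, hv, h1, h2⟩
          refine ⟨j, j.2, m % 3, Nat.mod_lt _ (by norm_num), rfl, ?_⟩
          have e3 : ((m : ℕ) % 3 + 1) % 3 = (m + 1) % 3 := by omega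
          rw [e3]
          rcases h2 with h2 | h2
          · exact Or.inl ⟨v, hv, (rel_a K P x T hab _ _).2 h2, h1⟩
          · exact Or.inr ⟨v, hv, (rel_b K P x T hab _ _).2 h2, h1⟩
      constructor
      · rintro ⟨h1, h2⟩
        rw [hsat] at h2
        obtain ⟨v, hv, h3, h4⟩ := h2
        match v with
        | .inl i' =>
          exfalso
          have h3 : _ = 0 ∨ _ = 2 * (cfg P x i').1 + 2 := h3
          omega
        | .inr (.inl i') =>
          exfalso
          have h3 : 2 * (3 * (j : ℕ) + (m + 1) % 3) + 3 = 1 := h3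
          omega
        | .inr (.inr ⟨i', j', m'⟩) =>
          have h3 : 2 * (3 * (j : ℕ) + (m + 1) % 3) + 3 = 2 * (3 * (j' : ℕ) + m' % 3) + 3 := h3
          have e1 : (j : ℕ) = j' := by omega
          have e2 : ((m : ℕ) + 1) % 3 = m' % 3 := by omega
          have hv : (m' : ℕ) + n < len' K P x T i' j' := hv
          have e3 : (i : ℕ) = i' ∧ (m' : ℕ) = m + 1 := by
            rcases h4 with h4 | h4
            · simp only [ka] at h4
              split_ifs at h4 with c1 c2 c2
              · exfalso
                omega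
              · simp only [Prod.mk.injEq] at h4
                omega
              · simp only [Prod.mk.injEq] at h4
                omega
              · simp only [Prod.mk.injEq] at h4
                omega
            · simp only [kb, Prod.mk.injEq] at h4
              omega
          have e4 : i = i' := Fin.ext e3.1
          have e5 : j = j' := Fin.ext e1
          subst e4
          subst e5
          change (m : ℕ) + (n + 1) < len' K P x T i j
          omega
      · intro h
        have h : (m : ℕ) + (n + 1) < len' K P x T i j := h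
        refine ⟨?_, ?_⟩
        · change (m : ℕ) + n < len' K P x T i j
          omega
        · rw [hsat]
          refine ⟨.inr (.inr ⟨i, j, ⟨m + 1, by omega⟩⟩), ?_, rfl, ?_⟩
          · change (m : ℕ) + 1 + n < len' K P x T i j
            omega
          · rcases Nat.even_or_odd (m : ℕ) with he | ho
            · right
              simp only [kb, Prod.mk.injEq, true_and]
              obtain ⟨r, hr⟩ := he
              omega
            · left
              obtain ⟨r, hr⟩ := ho
              simp only [ka]
              rw [if_neg (by omega), if_neg (by omega)]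
              simp only [Prod.mk.injEq, true_and]
              omega

theorem E_iff (j : ℕ) (hj : j < K + 1) (i : Fin (T + 1)) (n : ℕ) :
    E a b K (Mod K P x T a b) j (.inl i) n ↔ len' K P x T i j ≤ n := by
  unfold E
  rw [dom_eq K P x T hab, endF, sat_know]
  simp only [sat_neg]
  constructor
  · intro h
    by_contra hc
    refine h (.inr (.inr ⟨i, ⟨j, hj⟩, ⟨0, by simp only; omega⟩⟩)) ?_
      ((rel_a K P x T hab _ _).2 ?_) ?_
    · change 0 + n < len' K P x T i j
      omega
    · simp [ka]
    · change 2 * (3 * j + 0) + 3 = 2 * (3 * j + 0 % 3) + 3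
      omega
  · intro h v hv hr hl
    have hr := (rel_a K P x T hab _ _).1 hr
    match v with
    | .inl i' =>
      have hl : 2 * (3 * j + 0) + 3 = 0 ∨ 2 * (3 * j + 0) + 3 = 2 * (cfg P x i').1 + 2 := hl
      omega
    | .inr (.inl i') =>
      have hl : 2 * (3 * j + 0) + 3 = 1 := hl
      omega
    | .inr (.inr ⟨i', j', m'⟩) =>
      have hl : 2 * (3 * j + 0) + 3 = 2 * (3 * (j' : ℕ) + m' % 3) + 3 := hl
      have hv : (m' : ℕ) + n < len' K P x T i' j' := hv
      simp only [ka] at hr
      split_ifs at hr with c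
      · simp only [Prod.mk.injEq, and_true] at hr
        have e1 : j = j' := by omega
        rw [hr, e1] at h
        omega
      · simp only [Prod.mk.injEq] at hr
        omega

theorem succ_iff (i : Fin (T + 1)) (v : Wd K P x T) :
    Succ a b (Mod K P x T a b) (.inl i) v ↔ ∃ i' : Fin (T + 1), v = .inl i' ∧ (i' : ℕ) = i + 1 := by
  constructor
  · rintro ⟨u, h1, h2, h3, h4⟩
    have h1 := (rel_a K P x T hab _ _).1 h1
    have h3 := (rel_b K P x T hab _ _).1 h3
    match u with
    | .inl i' =>
      have h2 : 1 = 0 ∨ 1 = 2 * (cfg P x i').1 + 2 := h2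
      omega
    | .inr (.inr ⟨i', j', m'⟩) =>
      have h2 : 1 = 2 * (3 * (j' : ℕ) + m' % 3) + 3 := h2
      omega
    | .inr (.inl i') =>
      simp only [ka, Prod.mk.injEq, and_true] at h1
      match v with
      | .inl i'' =>
        simp only [kb, Prod.mk.injEq, and_true] at h3
        exact ⟨i'', rfl, by omega⟩
      | .inr (.inl i'') =>
        have h4 : 0 = 1 := h4
        omega
      | .inr (.inr ⟨i'', j', m'⟩) =>
        have h4 : 0 = 2 * (3 * (j' : ℕ) + m' % 3) + 3 := h4
        omega
  · rintro ⟨i', rfl, hi⟩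
    refine ⟨.inr (.inl i), (rel_a K P x T hab _ _).2 rfl, rfl, (rel_b K P x T hab _ _).2 ?_,
      Or.inl rfl⟩
    simp only [kb, hi]

omit hab in
theorem cfg_succ (i : ℕ) : cfg P x (i + 1) = step P (cfg P x i) := by
  unfold cfg
  rw [Function.iterate_succ_apply']

/-- relation between old and new value -/
def LenP (c c' : ℕ) : Ty → Prop
  | .same => c' = c
  | .inc => c' = c + 1
  | .dec => 0 < c ∧ c' = c - 1

theorem move_sat (i : Fin (T + 1)) (hi : (i : ℕ) < T) (t : ℕ) (ty : ℕ → Ty)
    (ht : (cfg P x (i + 1)).1 = t)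
    (hty : ∀ j < K + 1, LenP (len' K P x T i j) (len' K P x T (i + 1) j) (ty j)) :
    Sat (Mod K P x T a b) (moveF a b K t ty) Set.univ (.inl i) := by
  rw [sat_moveF a b K (Mod K P x T a b) t ty (v := .inl i) (Or.inl rfl)]
  refine ⟨⟨.inl ⟨i + 1, by omega⟩, (succ_iff K P x T hab i _).2 ⟨⟨i + 1, by omega⟩, rfl, rfl⟩⟩, ?_⟩
  intro v' hs
  obtain ⟨i', rfl, hi'⟩ := (succ_iff K P x T hab i v').1 hs
  refine ⟨Or.inr (by rw [hi', ht]), fun j hj => ?_⟩
  have h := hty j hj
  rw [← hi'] at h
  cases e : ty j with
  | same =>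
    rw [e] at h
    have h : len' K P x T i' j = len' K P x T i j := h
    intro n
    rw [E_iff K P x T hab j hj, E_iff K P x T hab j hj, h]
  | inc =>
    rw [e] at h
    have h : len' K P x T i' j = len' K P x T i j + 1 := h
    refine ⟨fun n => ?_, ?_⟩
    · rw [E_iff K P x T hab j hj, E_iff K P x T hab j hj, h]
      omega
    · rw [E_iff K P x T hab j hj, h]
      omega
  | dec =>
    rw [e] at h
    obtain ⟨h1, h2⟩ := (h : 0 < len' K P x T i j ∧ len' K P x T i' j = len' K P x T i j - 1)
    refine ⟨fun n => ?_, ?_⟩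
    · rw [E_iff K P x T hab j hj, E_iff K P x T hab j hj, h2]
      omega
    · rw [E_iff K P x T hab j hj]
      omega

omit hab in
theorem len_time (i : ℕ) (hi : i < T) : LenP (len' K P x T i K) (len' K P x T (i + 1) K) .dec := by
  unfold len'
  rw [if_neg (lt_irrefl K), if_neg (lt_irrefl K)]
  exact ⟨by omega, by omega⟩

omit hab in
theorem len_reg (i : ℕ) {j : ℕ} (hj : j < K) : len' K P x T i j = (cfg P x i).2 j := by
  unfold len'
  rw [if_pos hj]

theorem ins_sat (hP : ∀ i ∈ P, Ok K P.length i) (i : Fin (T + 1)) (hi : (i : ℕ) < T) {ins : Ins}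
    (h : P[(cfg P x i).1]? = some ins) :
    Sat (Mod K P x T a b) (insF a b K ins) Set.univ (.inl i) := by
  have hok : Ok K P.length ins := hP ins (List.mem_of_getElem? h)
  have hs := cfg_succ P x i
  cases ins with
  | inc r t =>
    obtain ⟨hr, -⟩ := (hok : r < K ∧ t ≤ P.length)
    have hst : cfg P x (i + 1) = (t, Function.update (cfg P x i).2 r ((cfg P x i).2 r + 1)) := by
      rw [hs]
      simp only [step, h]
    refine move_sat K P x T hab i hi t (tyI K r) (by rw [hst]) fun j hj => ?_
    unfold tyI
    by_cases hjK : j = K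
    · subst hjK
      rw [if_pos rfl]
      exact len_time j P x T i hi
    · rw [if_neg hjK, len_reg K P x T i (by omega), len_reg K P x T _ (by omega), hst]
      by_cases hjr : j = r
      · subst hjr
        rw [if_pos rfl]
        simp [LenP]
      · rw [if_neg hjr]
        simp [LenP, Function.update_of_ne hjr]
  | dec r t t' =>
    obtain ⟨hr, -, -⟩ := (hok : r < K ∧ t ≤ P.length ∧ t' ≤ P.length)
    have e0 : Sat (Mod K P x T a b) (endF a r) Set.univ (.inl i) ↔ (cfg P x i).2 r = 0 := by
      have h1 : Sat (Mod K P x T a b) (endF a r) Set.univ (.inl i) ↔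
          E a b K (Mod K P x T a b) r (.inl i) 0 := Iff.rfl
      rw [h1, E_iff K P x T hab r (by omega), len_reg K P x T i hr]
      omega
    change Sat (Mod K P x T a b) (.and (imp (endF a r) (moveF a b K t' (tyJ K)))
      (imp (.neg (endF a r)) (moveF a b K t (tyD K r)))) Set.univ (.inl i)
    rw [sat_and, sat_imp, sat_imp, sat_neg, e0]
    refine ⟨fun h0 => ?_, fun h0 => ?_⟩
    · have hst : cfg P x (i + 1) = (t', (cfg P x i).2) := by
        rw [hs]
        simp only [step, h, h0, if_true]
      refine move_sat K P x T hab i hi t' (tyJ K) (by rw [hst]) fun j hj => ?_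
      unfold tyJ
      by_cases hjK : j = K
      · subst hjK
        rw [if_pos rfl]
        exact len_time j P x T i hi
      · rw [if_neg hjK, len_reg K P x T i (by omega), len_reg K P x T _ (by omega), hst]
        simp [LenP]
    · have hst : cfg P x (i + 1) = (t, Function.update (cfg P x i).2 r ((cfg P x i).2 r - 1)) := by
        rw [hs]
        simp only [step, h, h0, if_false]
      refine move_sat K P x T hab i hi t (tyD K r) (by rw [hst]) fun j hj => ?_
      unfold tyD
      by_cases hjK : j = K
      · subst hjK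
        rw [if_pos rfl]
        exact len_time j P x T i hi
      · rw [if_neg hjK, len_reg K P x T i (by omega), len_reg K P x T _ (by omega), hst]
        by_cases hjr : j = r
        · subst hjr
          rw [if_pos rfl]
          refine ⟨by omega, by simp⟩
        · rw [if_neg hjr]
          simp [LenP, Function.update_of_ne hjr]
  | jmp t =>
    have hst : cfg P x (i + 1) = (t, (cfg P x i).2) := by
      rw [hs]
      simp only [step, h]
    refine move_sat K P x T hab i hi t (tyJ K) (by rw [hst]) fun j hj => ?_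
    unfold tyJ
    by_cases hjK : j = K
    · subst hjK
      rw [if_pos rfl]
      exact len_time j P x T i hi
    · rw [if_neg hjK, len_reg K P x T i (by omega), len_reg K P x T _ (by omega), hst]
      simp [LenP]

omit hab in
theorem cfg_le (hP : ∀ i ∈ P, Ok K P.length i) (i : ℕ) : (cfg P x i).1 ≤ P.length := by
  induction i with
  | zero => exact Nat.zero_le _
  | succ i ih =>
    rw [cfg_succ]
    cases h : P[(cfg P x i).1]? with
    | none =>
      have : step P (cfg P x i) = cfg P x i := by simp only [step, h]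
      rw [this]
      exact ih
    | some ins =>
      have hok : Ok K P.length ins := hP ins (List.mem_of_getElem? h)
      cases ins with
      | inc r t =>
        simp only [step, h]
        exact hok.2
      | dec r t t' =>
        obtain ⟨-, h1, h2⟩ := (hok : r < K ∧ t ≤ P.length ∧ t' ≤ P.length)
        simp only [step, h]
        split_ifs
        · exact h2
        · exact h1
      | jmp t =>
        simp only [step, h]
        exact hok

theorem sat_of_halts (hP : ∀ i ∈ P, Ok K P.length i) (hK : 0 < K)
    (hT : (cfg P x T).1 = P.length) (hmin : ∀ i < T, (cfg P x i).1 ≠ P.length) :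
    Sat (Mod K P x T a b) (Phi a b K P x) Set.univ (.inl 0) := by
  rw [sat_Phi]
  have hlen0 : ∀ j < K, len' K P x T 0 j = sx x 0 0 j := fun j hj => len_reg K P x T 0 hj
  refine ⟨Or.inl rfl, Or.inr rfl, ?_, fun j hj hj0 => ?_, fun v _ hv => ?_⟩
  · have h := inp_val a b K (Mod K P x T a b) x (v := .inl 0) (Or.inl rfl) 0
    have e0 : (Set.univ : Set (Wd K P x T)) = dom (Mod K P x T a b) (peel a b K) Set.univ 0 := rfl
    rw [e0, h]
    have e1 : len' K P x T ((0 : Fin (T + 1)) : ℕ) 0 = x := by
      have := hlen0 0 hK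
      simpa [sx] using this
    refine ⟨fun n hn => ?_, ?_⟩
    · rw [E_iff K P x T hab 0 (by omega), e1]
      omega
    · rw [E_iff K P x T hab 0 (by omega), e1]
      omega
  · rw [E_iff K P x T hab j (by omega)]
    have e1 : len' K P x T ((0 : Fin (T + 1)) : ℕ) j = 0 := by
      have := hlen0 j hj
      rw [Fin.val_zero, this]
      unfold sx
      rw [if_neg hj0]
      split_ifs <;> rfl
    rw [e1]
  · match v with
    | .inr (.inl i) =>
      have hv : 0 = 1 := hv
      omega
    | .inr (.inr ⟨i, j, m⟩) =>
      have hv : 0 = 2 * (3 * (j : ℕ) + m % 3) + 3 := hv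
      omega
    | .inl i =>
      rw [sat_locF]
      refine ⟨fun j hj => ⟨len' K P x T i j, dom_mem a b K _ (Or.inl (Or.inl rfl)) _, ?_⟩,
        fun l ins hl hq => ?_⟩
      · rw [E_iff K P x T hab j hj]
      · have hq : 2 * l + 2 = 0 ∨ 2 * l + 2 = 2 * (cfg P x i).1 + 2 := hq
        have e1 : l = (cfg P x i).1 := by omega
        subst e1
        have hiT : (i : ℕ) < T := by
          by_contra hc
          have : (i : ℕ) = T := by omega
          rw [this, hT, List.getElem?_eq_none le_rfl] at hl
          exact absurd hl (by simp)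
        exact ins_sat K P x T hab hP i hiT hl

theorem phi_iff (hP : ∀ i ∈ P, Ok K P.length i) (hK : 0 < K) :
    (∃ M : Model k, Finite M.W ∧ ∃ w, Sat M (Phi a b K P x) Set.univ w) ↔
      ∃ T, ((step P)^[T] (0, sx x 0 0)).1 = P.length := by
  constructor
  · rintro ⟨M, -, w, hw⟩
    exact halts_of_sat a b K M hP x hw
  · intro h
    classical
    refine ⟨Mod K P x (Nat.find h) a b, inferInstance, .inl 0, ?_⟩
    exact sat_of_halts K P x (Nat.find h) hab hP hK (Nat.find_spec h)
      fun i hi => Nat.find_min h hi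

end

end Pool.Agent.Z85.PA
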