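import Pool.Agent.Z85.PA.Basic
import Pool.Agent.Helper707.Num

/-!
# The formula of a counter machine
-/

set_option autoImplicit false

namespace Pool.Agent.Z85.PA

open Pool.Agent.Helper707.Flat Pool.Agent.Helper707.Num

section

variable {k : ℕ} (a b : Fin k) (K : ℕ)

/-- letter: configuration world -/
def mainL : Form k := .var 0

/-- letter: link world -/
def outL : Form k := .var 1

/-- letter: the control state is `l` -/
def qL (l : ℕ) : Form k := .var (2 * l + 2)

/-- letter: element of the chain `j` at a position congruent to `i` modulo three -/
def pL (j i : ℕ) : Form k := .var (2 * (3 * j + i) + 3)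

/-- element of a chain which has a successor in its chain -/
def hasNext : Form k :=
  disj ((List.range (K + 1)).map fun j => disj ((List.range 3).map fun i =>
    .and (pL j i) (dis (dia a (pL j ((i + 1) % 3))) (dia b (pL j ((i + 1) % 3))))))

/-- the announced formula: the last elements of all the chains are removed -/
def peel : Form k := dis mainL (dis outL (hasNext a b K))

/-- the chain `j` of this configuration is empty -/
def endF (j : ℕ) : Form k := .know a (.neg (pL j 0))

/-- at all successor configurations -/
def succBox (ψ : Form k) : Form k := .know a (imp outL (.know b (imp mainL ψ)))

/-- there is a successor configuration -/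
def succDia : Form k := dia a (.and outL (dia b mainL))

/-- types of changes of a counter -/
inductive Ty
  | same
  | inc
  | dec

/-- comparison of a counter with the counter of the successor, at all stages -/
def relF (j : ℕ) : Ty → Form k
  | .same => .and (imp (endF a j) (succBox a b (endF a j)))
      (imp (.neg (endF a j)) (succBox a b (.neg (endF a j))))
  | .inc => .and (imp (endF a j) (succBox a b (.ann (peel a b K) (endF a j))))
      (imp (.neg (endF a j)) (succBox a b (.neg (.ann (peel a b K) (endF a j)))))
  | .dec => .and (imp (.ann (peel a b K) (endF a j)) (succBox a b (endF a j)))
      (imp (.neg (.ann (peel a b K) (endF a j))) (succBox a b (.neg (endF a j))))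

/-- the part of the comparison for the stage zero -/
def initF (j : ℕ) : Ty → Form k
  | .same => top
  | .inc => succBox a b (.neg (endF a j))
  | .dec => .neg (endF a j)

/-- the formula of a change of the configuration -/
def moveF (t : ℕ) (ty : ℕ → Ty) : Form k :=
  conj [succDia a b, succBox a b (qL t),
    conj ((List.range (K + 1)).map fun j => initF a b j (ty j)),
    .star (peel a b K) (conj ((List.range (K + 1)).map fun j => relF a b K j (ty j)))]

/-- only the time changes -/
def tyJ : ℕ → Ty := fun j => if j = K then .dec else .same

/-- the types for an instruction which increases `r` -/
def tyI (r : ℕ) : ℕ → Ty := fun j => if j = K then .dec else if j = r then .inc else .same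

/-- the types for an instruction which decreases `r` -/
def tyD (r : ℕ) : ℕ → Ty := fun j => if j = K then .dec else if j = r then .dec else .same

/-- the formula of an instruction -/
def insF : Ins → Form k
  | .inc r t => moveF a b K t (tyI K r)
  | .dec r t t' => .and (imp (endF a r) (moveF a b K t' (tyJ K)))
      (imp (.neg (endF a r)) (moveF a b K t (tyD K r)))
  | .jmp t => moveF a b K t (tyJ K)

/-- the conditions at every configuration -/
def locF (P : List Ins) : Form k :=
  .and (conj ((List.range (K + 1)).map fun j => dstar (peel a b K) (endF a j)))
    (conj ((List.range P.length).map fun l =>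
      match P[l]? with
      | some i => imp (qL l) (insF a b K i)
      | none => top))

/-- the counter zero has the value `x` -/
def inp : ℕ → Form k
  | 0 => endF a 0
  | x + 1 => .and (.neg (endF a 0)) (.ann (peel a b K) (inp x))

/-- the formula of the program `P` and the input `x` -/
def Phi (P : List Ins) (x : ℕ) : Form k :=
  .and (inp a b K x)
    (conj [mainL, qL 0, conj ((List.range K).map fun j => if j = 0 then top else endF a j),
      .common {a, b} (by simp) (imp mainL (locF a b K P))])

end

end Pool.Agent.Z85.PA
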