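import Pool.Agent.Z85.PA.Formula

/-!
# A model of the formula gives a halting computation
-/

set_option autoImplicit false

namespace Pool.Agent.Z85.PA

open Pool.Agent.Helper707.Flat Pool.Agent.Helper707.Num

variable {k : ℕ} (a b : Fin k) (K : ℕ) (M : Model k)

theorem sat_mem {D : Set M.W} {v : M.W} (hv : v ∈ D) (h : M.val 0 v ∨ M.val 1 v) :
    v ∈ restr M (peel a b K) D := by
  refine ⟨hv, ?_⟩
  rw [peel, sat_dis, sat_dis]
  rcases h with h | h
  · exact Or.inl h
  · exact Or.inr (Or.inl h)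

theorem dom_mem {v : M.W} (h : M.val 0 v ∨ M.val 1 v) (n : ℕ) :
    v ∈ dom M (peel a b K) Set.univ n := by
  induction n with
  | zero => exact Set.mem_univ _
  | succ n ih =>
    rw [dom_succ]
    exact sat_mem a b K M ih h

/-- the chain `j` is empty at the stage `n` -/
def E (j : ℕ) (v : M.W) (n : ℕ) : Prop := Sat M (endF a j) (dom M (peel a b K) Set.univ n) v

theorem E_mono {j : ℕ} {v : M.W} {m n : ℕ} (h : m ≤ n) (hE : E a b K M j v m) :
    E a b K M j v n := by
  intro u hu hr
  exact hE u (dom_anti M _ _ h hu) hr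

theorem sat_ann_end (j : ℕ) (v : M.W) (hv : M.val 0 v) (n : ℕ) :
    Sat M (.ann (peel a b K) (endF a j)) (dom M (peel a b K) Set.univ n) v ↔
      E a b K M j v (n + 1) := by
  rw [sat_ann]
  have h1 : Sat M (peel a b K) (dom M (peel a b K) Set.univ n) v :=
    (sat_mem a b K M (dom_mem a b K M (Or.inl hv) n) (Or.inl hv)).2
  unfold E
  rw [dom_succ]
  exact ⟨fun h => h h1, fun h _ => h⟩

/-- successor configurations -/
def Succ (v v' : M.W) : Prop :=
  ∃ u, M.rel a v u ∧ M.val 1 u ∧ M.rel b u v' ∧ M.val 0 v'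

theorem sat_succBox (ψ : Form k) (n : ℕ) (v : M.W) :
    Sat M (succBox a b ψ) (dom M (peel a b K) Set.univ n) v ↔
      ∀ v', Succ a b M v v' → Sat M ψ (dom M (peel a b K) Set.univ n) v' := by
  unfold succBox
  simp only [sat_know, sat_imp, outL, mainL, sat_var]
  constructor
  · rintro h v' ⟨u, h1, h2, h3, h4⟩
    exact h u (dom_mem a b K M (Or.inr h2) n) h1 h2 v' (dom_mem a b K M (Or.inl h4) n) h3 h4
  · intro h u _ h1 h2 v' _ h3 h4
    exact h v' ⟨u, h1, h2, h3, h4⟩

theorem sat_succDia (n : ℕ) (v : M.W) :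
    Sat M (succDia a b) (dom M (peel a b K) Set.univ n) v ↔ ∃ v', Succ a b M v v' := by
  unfold succDia
  simp only [sat_dia, sat_and, outL, mainL, sat_var]
  constructor
  · rintro ⟨u, _, h1, h2, v', _, h3, h4⟩
    exact ⟨v', u, h1, h2, h3, h4⟩
  · rintro ⟨v', u, h1, h2, h3, h4⟩
    exact ⟨u, dom_mem a b K M (Or.inr h2) n, h1, h2, v', dom_mem a b K M (Or.inl h4) n, h3, h4⟩

/-- the meaning of the types of changes -/
def RelP (j : ℕ) (v v' : M.W) : Ty → Prop
  | .same => ∀ n, E a b K M j v n ↔ E a b K M j v' n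
  | .inc => (∀ n, E a b K M j v n ↔ E a b K M j v' (n + 1)) ∧ ¬ E a b K M j v' 0
  | .dec => (∀ n, E a b K M j v (n + 1) ↔ E a b K M j v' n) ∧ ¬ E a b K M j v 0

theorem sat_relF (j : ℕ) (n : ℕ) {v : M.W} (hv : M.val 0 v) (ty : Ty) :
    Sat M (relF a b K j ty) (dom M (peel a b K) Set.univ n) v ↔ ∀ v', Succ a b M v v' →
      match ty with
      | .same => (E a b K M j v n ↔ E a b K M j v' n)
      | .inc => (E a b K M j v n ↔ E a b K M j v' (n + 1))
      | .dec => (E a b K M j v (n + 1) ↔ E a b K M j v' n) := by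
  cases ty with
  | same =>
    simp only [relF, sat_and, sat_imp, sat_succBox, sat_neg]
    constructor
    · rintro ⟨h1, h2⟩ v' hs
      by_cases h : Sat M (endF a j) (dom M (peel a b K) Set.univ n) v
      · exact ⟨fun _ => h1 h v' hs, fun _ => h⟩
      · exact ⟨fun h' => absurd h' h, fun h' => absurd h' (h2 h v' hs)⟩
    · intro h
      exact ⟨fun h1 v' hs => (h v' hs).1 h1, fun h1 v' hs h2 => h1 ((h v' hs).2 h2)⟩
  | inc =>
    simp only [relF, sat_and, sat_imp, sat_succBox, sat_neg]
    constructor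
    · rintro ⟨h1, h2⟩ v' hs
      have hv' : M.val 0 v' := by obtain ⟨u, _, _, _, h⟩ := hs; exact h
      by_cases h : Sat M (endF a j) (dom M (peel a b K) Set.univ n) v
      · exact ⟨fun _ => (sat_ann_end a b K M j v' hv' n).1 (h1 h v' hs), fun _ => h⟩
      · exact ⟨fun h' => absurd h' h,
          fun h' => absurd ((sat_ann_end a b K M j v' hv' n).2 h') (h2 h v' hs)⟩
    · intro h
      refine ⟨fun h1 v' hs => ?_, fun h1 v' hs h2 => ?_⟩
      · have hv' : M.val 0 v' := by obtain ⟨u, _, _, _, h⟩ := hs; exact h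
        exact (sat_ann_end a b K M j v' hv' n).2 ((h v' hs).1 h1)
      · have hv' : M.val 0 v' := by obtain ⟨u, _, _, _, h⟩ := hs; exact h
        exact h1 ((h v' hs).2 ((sat_ann_end a b K M j v' hv' n).1 h2))
  | dec =>
    simp only [relF, sat_and, sat_imp, sat_succBox, sat_neg, sat_ann_end a b K M j v hv n]
    constructor
    · rintro ⟨h1, h2⟩ v' hs
      by_cases h : E a b K M j v (n + 1)
      · exact ⟨fun _ => h1 h v' hs, fun _ => h⟩
      · exact ⟨fun h' => absurd h' h, fun h' => absurd h' (h2 h v' hs)⟩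
    · intro h
      exact ⟨fun h1 v' hs => (h v' hs).1 h1, fun h1 v' hs h2 => h1 ((h v' hs).2 h2)⟩

theorem sat_moveF (t : ℕ) (ty : ℕ → Ty) {v : M.W} (hv : M.val 0 v) :
    Sat M (moveF a b K t ty) Set.univ v ↔ (∃ v', Succ a b M v v') ∧
      ∀ v', Succ a b M v v' → M.val (2 * t + 2) v' ∧
        ∀ j < K + 1, RelP a b K M j v v' (ty j) := by
  have e0 : (Set.univ : Set M.W) = dom M (peel a b K) Set.univ 0 := rfl
  unfold moveF
  rw [sat_conj]
  simp only [List.mem_cons, List.not_mem_nil, or_false, forall_eq_or_imp, forall_eq]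
  rw [sat_conj]
  simp only [List.mem_map, List.mem_range, forall_exists_index, and_imp, forall_apply_eq_imp_iff₂]
  rw [sat_star]
  simp only [sat_conj, List.mem_map, List.mem_range, forall_exists_index, and_imp,
    forall_apply_eq_imp_iff₂, sat_relF a b K M _ _ hv]
  rw [e0, sat_succDia, sat_succBox]
  constructor
  · rintro ⟨h1, h2, h3, h4⟩
    refine ⟨h1, fun v' hs => ⟨h2 v' hs, fun j hj => ?_⟩⟩
    have h3' := h3 j hj
    have h4' := fun n => h4 n (dom_mem a b K M (Or.inl hv) n) j hj v' hs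
    cases h : ty j with
    | same =>
      intro n
      have := h4' n
      rw [h] at this
      exact this
    | inc =>
      refine ⟨fun n => ?_, ?_⟩
      · have := h4' n
        rw [h] at this
        exact this
      · rw [h] at h3'
        simp only [initF] at h3'
        rw [sat_succBox] at h3'
        exact h3' v' hs
    | dec =>
      refine ⟨fun n => ?_, ?_⟩
      · have := h4' n
        rw [h] at this
        exact this
      · rw [h] at h3'
        exact h3'
  · rintro ⟨h1, h2⟩
    refine ⟨h1, fun v' hs => (h2 v' hs).1, fun j hj => ?_, fun n _ j hj v' hs => ?_⟩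
    · cases h : ty j with
      | same => exact sat_top _ _ _
      | inc =>
        simp only [initF]
        rw [sat_succBox]
        intro v' hs
        have := (h2 v' hs).2 j hj
        rw [h] at this
        exact this.2
      | dec =>
        obtain ⟨v', hs⟩ := h1
        have := (h2 v' hs).2 j hj
        rw [h] at this
        exact this.2
    · have := (h2 v' hs).2 j hj
      cases h : ty j with
      | same => rw [h] at this; exact this n
      | inc => rw [h] at this; exact this.1 n
      | dec => rw [h] at this; exact this.1 n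

/-- new value of a counter -/
def newv (c : ℕ) : Ty → ℕ
  | .same => c
  | .inc => c + 1
  | .dec => c - 1

theorem relP_val {j : ℕ} {v v' : M.W} {ty : Ty} (h : RelP a b K M j v v' ty) {c : ℕ}
    (hc : ∀ n, E a b K M j v n ↔ c ≤ n) : ∀ n, E a b K M j v' n ↔ newv c ty ≤ n := by
  intro n
  cases ty with
  | same =>
    have h : ∀ n, E a b K M j v n ↔ E a b K M j v' n := h
    rw [← h n]
    exact hc n
  | inc =>
    obtain ⟨h1, h2⟩ := (h : (∀ n, E a b K M j v n ↔ E a b K M j v' (n + 1)) ∧ ¬ E a b K M j v' 0)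
    cases n with
    | zero => simp [newv, h2]
    | succ n => rw [← h1 n, hc n]; simp [newv]
  | dec =>
    obtain ⟨h1, h2⟩ := (h : (∀ n, E a b K M j v (n + 1) ↔ E a b K M j v' n) ∧ ¬ E a b K M j v 0)
    rw [← h1 n, hc (n + 1)]
    simp only [newv]
    omega

theorem relP_pos {j : ℕ} {v v' : M.W} (h : RelP a b K M j v v' .dec) {c : ℕ}
    (hc : ∀ n, E a b K M j v n ↔ c ≤ n) : 0 < c := by
  obtain ⟨_, h2⟩ := (h : (∀ n, E a b K M j v (n + 1) ↔ E a b K M j v' n) ∧ ¬ E a b K M j v 0)
  rw [hc 0] at h2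
  omega

/-- the local conditions, in words -/
theorem sat_locF (P : List Ins) {v : M.W} :
    Sat M (locF a b K P) Set.univ v ↔ (∀ j < K + 1, ∃ n, v ∈ dom M (peel a b K) Set.univ n ∧
      E a b K M j v n) ∧ ∀ l i, P[l]? = some i → M.val (2 * l + 2) v →
        Sat M (insF a b K i) Set.univ v := by
  unfold locF
  rw [sat_and, sat_conj, sat_conj]
  simp only [List.mem_map, List.mem_range, forall_exists_index, and_imp,
    forall_apply_eq_imp_iff₂, sat_dstar]
  refine and_congr Iff.rfl ?_
  constructor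
  · intro h l i hi hq
    have hl : l < P.length := by
      by_contra hc
      rw [List.getElem?_eq_none (by omega)] at hi
      exact absurd hi (by simp)
    have := h l hl
    rw [hi] at this
    simp only [sat_imp] at this
    exact this hq
  · intro h l hl
    have hi : P[l]? = some P[l] := List.getElem?_eq_getElem hl
    rw [hi]
    simp only [sat_imp]
    exact fun hq => h l _ hi hq

/-- the worlds which can be reached -/
def Reach (w v : M.W) : Prop :=
  Relation.TransGen (fun x y => x ∈ (Set.univ : Set M.W) ∧ y ∈ (Set.univ : Set M.W) ∧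
    ∃ c ∈ ({a, b} : Finset (Fin k)), M.rel c x y) w v

theorem Reach.succ {w v v' : M.W} (h : Reach a b M w v) (hs : Succ a b M v v') :
    Reach a b M w v' := by
  obtain ⟨u, h1, h2, h3, h4⟩ := hs
  refine (h.tail (c := u) ⟨Set.mem_univ _, Set.mem_univ _, a, by simp, h1⟩).tail
    ⟨Set.mem_univ _, Set.mem_univ _, b, by simp, h3⟩

theorem Reach.self (w : M.W) : Reach a b M w w :=
  Relation.TransGen.single ⟨Set.mem_univ _, Set.mem_univ _, a, by simp, (M.equiv a).refl w⟩

theorem tyJ_new (c : ℕ → ℕ) {j : ℕ} (hj : j < K) : newv (c j) (tyJ K j) = c j := by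
  unfold tyJ
  rw [if_neg (by omega)]
  rfl

/-- one step -/
theorem one_step {P : List Ins} {pc : ℕ} {c : ℕ → ℕ} {i : Ins} (hi : P[pc]? = some i)
    {L : ℕ} (hok : Ok K L i) {v : M.W}
    (hv : M.val 0 v) (hc : ∀ j < K, ∀ n, E a b K M j v n ↔ c j ≤ n)
    {N : ℕ} (hN : ∀ n, E a b K M K v n ↔ N ≤ n) (h : Sat M (insF a b K i) Set.univ v) :
    0 < N ∧ (step P (pc, c)).1 ≤ L ∧ ∃ v', Succ a b M v v' ∧ M.val (2 * (step P (pc, c)).1 + 2) v' ∧
      (∀ j < K, ∀ n, E a b K M j v' n ↔ (step P (pc, c)).2 j ≤ n) ∧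
      ∀ n, E a b K M K v' n ↔ N - 1 ≤ n := by
  have key : ∀ (t : ℕ) (ty : ℕ → Ty), ty K = .dec → Sat M (moveF a b K t ty) Set.univ v →
      0 < N ∧ ∃ v', Succ a b M v v' ∧ M.val (2 * t + 2) v' ∧
        (∀ j < K, RelP a b K M j v v' (ty j)) ∧
        (∀ j < K, ∀ n, E a b K M j v' n ↔ newv (c j) (ty j) ≤ n) ∧
        ∀ n, E a b K M K v' n ↔ N - 1 ≤ n := by
    intro t ty hK hm
    rw [sat_moveF a b K M t ty hv] at hm
    obtain ⟨⟨v', hs⟩, h2⟩ := hm
    obtain ⟨h3, h4⟩ := h2 v' hs
    have h5 := h4 K (Nat.lt_succ_self K)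
    rw [hK] at h5
    refine ⟨relP_pos a b K M h5 hN, v', hs, h3, fun j hj => h4 j (by omega),
      fun j hj => relP_val a b K M (h4 j (by omega)) (hc j hj), relP_val a b K M h5 hN⟩
  cases i with
  | inc r t =>
    obtain ⟨hr, ht⟩ := (hok : r < K ∧ t ≤ L)
    obtain ⟨h0, v', h1, h2, h3', h3, h4⟩ := key t (tyI K r) (by simp [tyI]) h
    have hst : step P (pc, c) = (t, Function.update c r (c r + 1)) := by
      simp only [step, hi]
    rw [hst]
    refine ⟨h0, ht, v', h1, h2, fun j hj n => ?_, h4⟩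
    rw [h3 j hj n]
    unfold tyI
    rw [if_neg (by omega)]
    by_cases hjr : j = r
    · subst hjr
      rw [if_pos rfl]
      simp [newv]
    · rw [if_neg hjr]
      simp [newv, Function.update_of_ne hjr]
  | dec r t t' =>
    obtain ⟨hr, ht, ht'⟩ := (hok : r < K ∧ t ≤ L ∧ t' ≤ L)
    have h : Sat M (.and (imp (endF a r) (moveF a b K t' (tyJ K)))
      (imp (.neg (endF a r)) (moveF a b K t (tyD K r)))) Set.univ v := h
    rw [sat_and, sat_imp, sat_imp, sat_neg] at h
    have e0 : Sat M (endF a r) Set.univ v ↔ c r = 0 := by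
      have : Sat M (endF a r) Set.univ v ↔ E a b K M r v 0 := Iff.rfl
      rw [this, hc r hr 0]
      omega
    by_cases h0 : c r = 0
    · obtain ⟨h0', v', h1, h2, h3', h3, h4⟩ := key t' (tyJ K) (by simp [tyJ]) (h.1 (e0.2 h0))
      have hst : step P (pc, c) = (t', c) := by
        simp only [step, hi, h0, if_true]
      rw [hst]
      refine ⟨h0', ht', v', h1, h2, fun j hj n => ?_, h4⟩
      rw [h3 j hj n, tyJ_new K c hj]
    · obtain ⟨h0', v', h1, h2, h3', h3, h4⟩ := key t (tyD K r) (by simp [tyD])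
        (h.2 fun hh => h0 (e0.1 hh))
      have hst : step P (pc, c) = (t, Function.update c r (c r - 1)) := by
        simp only [step, hi, h0, if_false]
      rw [hst]
      refine ⟨h0', ht, v', h1, h2, fun j hj n => ?_, h4⟩
      rw [h3 j hj n]
      unfold tyD
      rw [if_neg (by omega)]
      by_cases hjr : j = r
      · subst hjr
        rw [if_pos rfl]
        simp [newv]
      · rw [if_neg hjr]
        simp [newv, Function.update_of_ne hjr]
  | jmp t =>
    have ht : t ≤ L := hok
    obtain ⟨h0, v', h1, h2, h3', h3, h4⟩ := key t (tyJ K) (by simp [tyJ]) h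
    have hst : step P (pc, c) = (t, c) := by
      simp only [step, hi]
    rw [hst]
    refine ⟨h0, ht, v', h1, h2, fun j hj n => ?_, h4⟩
    rw [h3 j hj n, tyJ_new K c hj]

theorem halts_of_time {P : List Ins} (hP : ∀ i ∈ P, Ok K P.length i) {w : M.W}
    (hall : ∀ v, Reach a b M w v → M.val 0 v → Sat M (locF a b K P) Set.univ v) (N : ℕ) :
    ∀ (pc : ℕ) (c : ℕ → ℕ) (v : M.W), pc ≤ P.length → Reach a b M w v → M.val 0 v →
      M.val (2 * pc + 2) v → (∀ j < K, ∀ n, E a b K M j v n ↔ c j ≤ n) →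
      (∀ n, E a b K M K v n ↔ N ≤ n) → ∃ T, ((step P)^[T] (pc, c)).1 = P.length := by
  induction N with
  | zero =>
    intro pc c v hpc hr hv hq hc hN
    rcases Nat.lt_or_ge pc P.length with h | h
    · have hi : P[pc]? = some P[pc] := List.getElem?_eq_getElem h
      have h1 := (sat_locF a b K M P).1 (hall v hr hv)
      have h2 := one_step a b K M hi (hP _ (List.getElem_mem h)) hv hc hN (h1.2 _ _ hi hq)
      exact absurd h2.1 (lt_irrefl 0)
    · exact ⟨0, by simp; omega⟩
  | succ N ih =>
    intro pc c v hpc hr hv hq hc hN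
    rcases Nat.lt_or_ge pc P.length with h | h
    · have hi : P[pc]? = some P[pc] := List.getElem?_eq_getElem h
      have h1 := (sat_locF a b K M P).1 (hall v hr hv)
      obtain ⟨-, h2, v', h3, h4, h5, h6⟩ :=
        one_step a b K M hi (hP _ (List.getElem_mem h)) hv hc hN (h1.2 _ _ hi hq)
      have hv' : M.val 0 v' := by obtain ⟨u, _, _, _, h⟩ := h3; exact h
      obtain ⟨T, hT⟩ := ih (step P (pc, c)).1 (step P (pc, c)).2 v' h2 (hr.succ a b M h3) hv' h4 h5
        (by simpa using h6)
      refine ⟨T + 1, ?_⟩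
      rw [Function.iterate_succ_apply]
      exact hT
    · exact ⟨0, by simp; omega⟩

theorem inp_val (x : ℕ) {v : M.W} (hv : M.val 0 v) (m : ℕ) :
    Sat M (inp a b K x) (dom M (peel a b K) Set.univ m) v ↔
      (∀ n < x, ¬ E a b K M 0 v (m + n)) ∧ E a b K M 0 v (m + x) := by
  induction x generalizing m with
  | zero => simp [inp, E]
  | succ x ih =>
    have h1 : Sat M (peel a b K) (dom M (peel a b K) Set.univ m) v :=
      (sat_mem a b K M (dom_mem a b K M (Or.inl hv) m) (Or.inl hv)).2
    simp only [inp]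
    rw [sat_and, sat_ann, ← dom_succ, ih (m + 1), sat_neg]
    constructor
    · rintro ⟨h2, h3⟩
      obtain ⟨h3, h4⟩ := h3 h1
      refine ⟨fun n hn => ?_, ?_⟩
      · cases n with
        | zero => exact h2
        | succ n =>
          have := h3 n (by omega)
          rwa [show m + 1 + n = m + (n + 1) by ring] at this
      · rwa [show m + 1 + x = m + (x + 1) by ring] at h4
    · rintro ⟨h2, h3⟩
      refine ⟨h2 0 (by omega), fun _ => ⟨fun n hn => ?_, ?_⟩⟩
      · rw [show m + 1 + n = m + (n + 1) by ring]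
        exact h2 (n + 1) (by omega)
      · rwa [show m + 1 + x = m + (x + 1) by ring]

theorem sat_Phi (P : List Ins) (x : ℕ) {w : M.W} :
    Sat M (Phi a b K P x) Set.univ w ↔ M.val 0 w ∧ M.val 2 w ∧ Sat M (inp a b K x) Set.univ w ∧
      (∀ j < K, j ≠ 0 → E a b K M j w 0) ∧
      ∀ v, Reach a b M w v → M.val 0 v → Sat M (locF a b K P) Set.univ v := by
  unfold Phi
  rw [sat_and, sat_conj]
  simp only [List.mem_cons, List.not_mem_nil, or_false, forall_eq_or_imp, forall_eq]
  rw [sat_conj]
  simp only [List.mem_map, List.mem_range, forall_exists_index, and_imp, forall_apply_eq_imp_iff₂]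
  have e1 : Sat M (.common {a, b} (by simp) (imp mainL (locF a b K P))) Set.univ w ↔
      ∀ v, Reach a b M w v → M.val 0 v → Sat M (locF a b K P) Set.univ v := by
    constructor
    · intro h v hr hv
      have := h v (Set.mem_univ _) hr
      rw [sat_imp] at this
      exact this hv
    · intro h v _ hr
      rw [sat_imp]
      exact fun hv => h v hr hv
  rw [e1]
  constructor
  · rintro ⟨h1, h2, h3, h4, h5⟩
    refine ⟨h2, h3, h1, fun j hj hj0 => ?_, h5⟩
    have := h4 j hj
    rw [if_neg hj0] at this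
    exact this
  · rintro ⟨h2, h3, h1, h4, h5⟩
    refine ⟨h1, h2, h3, fun j hj => ?_, h5⟩
    split_ifs with hj0
    · exact sat_top _ _ _
    · exact h4 j hj hj0

theorem halts_of_sat {P : List Ins} (hP : ∀ i ∈ P, Ok K P.length i) (x : ℕ) {w : M.W}
    (h : Sat M (Phi a b K P x) Set.univ w) :
    ∃ T, ((step P)^[T] (0, sx x 0 0)).1 = P.length := by
  rw [sat_Phi] at h
  obtain ⟨h1, h2, h3, h4, h5⟩ := h
  have h3' := (inp_val a b K M x h1 0).1 h3
  simp only [zero_add] at h3'
  have h6 := ((sat_locF a b K M P).1 (h5 w (Reach.self a b M w) h1)).1 K (Nat.lt_succ_self K)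
  obtain ⟨n0, -, hn0⟩ := h6
  classical
  have hex : ∃ n, E a b K M K w n := ⟨n0, hn0⟩
  refine halts_of_time a b K M hP h5 (Nat.find hex) 0 (sx x 0 0) w (Nat.zero_le _)
    (Reach.self a b M w) h1 h2 (fun j hj n => ?_) fun n => ?_
  · by_cases hj0 : j = 0
    · subst hj0
      have e : sx x 0 0 0 = x := by simp [sx]
      rw [e]
      constructor
      · intro hE
        by_contra hc
        exact h3'.1 n (by omega) hE
      · intro hn
        exact E_mono a b K M hn h3'.2
    · have e : sx x 0 0 j = 0 := by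
        unfold sx
        rw [if_neg hj0]
        split_ifs <;> rfl
      rw [e]
      exact ⟨fun _ => Nat.zero_le _, fun _ => E_mono a b K M (Nat.zero_le _) (h4 j hj hj0)⟩
  · constructor
    · intro hE
      exact Nat.find_min' hex hE
    · intro hn
      exact E_mono a b K M hn (Nat.find_spec hex)

end Pool.Agent.Z85.PA
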